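import Pool.Agent.H60.KB.GEN
import Pool.Agent.H86.KN.Inst
import Pool.Agent.H35.KB.Stmts

/-!
# Module USF of board kb: short time expansion of the linear functional
-/

set_option autoImplicit false
set_option linter.unusedSectionVars false

open MeasureTheory Set Filter Topology
open scoped ContDiff

namespace Pool.Agent.H60.KB

open Pool.Agent.H84 Pool.Agent.H84.Sym Pool.Agent.H84.Sym.P2x Pool.Agent.H19.KL
open Pool.Agent.H73.KG Pool.Agent.H20.KH Pool.Agent.H52.KB Pool.Agent.H86.KN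
open Pool.Agent.H35.KB
open Pool.Agent.H55.KB (WS FL gN GG WS_eq_LS WS_succ)

variable (E : Type) [NormedAddCommGroup E] [InnerProductSpace ℝ E]
    [FiniteDimensional ℝ E] [MeasurableSpace E] [BorelSpace E]

/-- the linear functional at `P = 1` is the sum of the squares -/
theorem usf_FL_one {ι : Type} [Fintype ι] [DecidableEq ι] (n : ℕ) (N : List ι → ℝ) :
    FL (1 : Matrix ι ι ℝ) n N = WS (n + 1) (fun l => N l ^ 2) := by
  unfold FL
  have e1 : ∑ a, ∑ b, (1 : Matrix ι ι ℝ) a b * WS n (fun l => N (a :: l) * N (b :: l)) =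
      WS (n + 1) (fun l => N l ^ 2) := by
    rw [WS_succ]
    refine Finset.sum_congr rfl fun a _ => ?_
    rw [Finset.sum_eq_single a]
    · rw [Matrix.one_apply_eq, one_mul]
      exact congrArg (WS n) (funext fun l => (sq _).symm)
    · intro b _ hb
      rw [Matrix.one_apply_ne (Ne.symm hb), zero_mul]
    · intro h
      exact absurd (Finset.mem_univ a) h
  rw [e1]
  ring

theorem usf_thm : USFStmt E := by
  intro t ht n
  obtain ⟨B, hB0, hB⟩ := tq_step (b0 E) ht 1 (FQ (JJ E) n)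
  refine ⟨B, hB0, fun U hU ρ hρ hP ψ hψ s hs hs1 => ?_⟩
  set r : JJ E × JJ E → ℝ := fun p => ρ p.1 p.2 with hr
  have hmat : ∀ (s : ℝ) (θ : E), (Matrix.of fun a c => r (a, c) + XX (b0 E) U a [c] s θ) =
      ρ + AX (b0 E) (pw U s θ) := by
    intro s θ
    ext a c
    simp only [Matrix.of_apply, Matrix.add_apply, AX, hr, nx, nd_pw]
    rfl
  have hnp : ∀ (s : ℝ) (θ : E), (fun l => NN (b0 E) U ψ l s θ) = np (b0 E) (pw U s θ) ψ := by
    intro s θ
    funext l
    exact (nd_pw U ψ _ s θ).symm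
  have hev : ∀ (s : ℝ), (FQ (JJ E) n).ev r (XX (b0 E) U) (NN (b0 E) U ψ) s = fun θ =>
      FL (ρ + AX (b0 E) (pw U s θ)) n (np (b0 E) (pw U s θ) ψ) := by
    intro s
    funext θ
    rw [FQ_ev, hmat, hnp]
  have hP0 : ∀ a c, r (a, c) + XX (b0 E) U a [c] 0 0 = if a = c then 1 else 0 := by
    intro a c
    have h := congrFun (congrFun hP a) c
    rw [Matrix.add_apply, Matrix.one_apply] at h
    exact h
  have hT0 : ∀ k a c, XX (b0 E) U a [k, c] 0 0 = XX (b0 E) U c [k, a] 0 0 := by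
    intro k a c
    have h1 : (fun θ => ND U (li (b0 E a)) [b0 E c] 0 θ) =
        fun θ => ND U (li (b0 E c)) [b0 E a] 0 θ := by
      funext θ
      rw [nd_one hU (Pool.Agent.H85.KG.gc_lin _) _ le_rfl, nd_one hU (Pool.Agent.H85.KG.gc_lin _) _ le_rfl]
      unfold H73.KG.cv
      rw [mul_comm (∫ x, li (b0 E a) x ∂(mu (pw U 0 θ)))]
      congr 1
      exact integral_congr_ae (Eventually.of_forall fun x => mul_comm _ _)
    change D (b0 E k) (fun θ => ND U (li (b0 E a)) [b0 E c] 0 θ) 0 =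
      D (b0 E k) (fun θ => ND U (li (b0 E c)) [b0 E a] 0 θ) 0
    rw [h1]
  have h00 : (FQ (JJ E) n).ev r (XX (b0 E) U) (NN (b0 E) U ψ) 0 0 = H35.KB.hs (b0 E) U ψ (n + 1) := by
    rw [FQ_ev]
    have e : (Matrix.of fun a c => r (a, c) + XX (b0 E) U a [c] 0 0) = 1 := by
      ext a c
      rw [Matrix.of_apply, hP0 a c, Matrix.one_apply]
    rw [e, usf_FL_one]
    rfl
  have hg0 : (FQ (JJ E) n).gen.ev r (XX (b0 E) U) (NN (b0 E) U ψ) 0 0 = GX (b0 E) U ψ n := by
    rw [FQ_gen r (XX (b0 E) U) (NN (b0 E) U ψ) n 0 0 hP0 hT0]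
    rfl
  refine ⟨?_, ?_⟩
  · rw [← hev s]
    exact GC_rg (TQ.rg (ns_nd (b0 E) hU hψ) r (FQ (JJ E) n)) hs
  · have h := (hB U hU ψ hψ r (fun k => hρ k.1 k.2) s hs.le).2
    rw [hev s, h00, hg0] at h
    calc _ ≤ B * cv U ψ ψ * s ^ 2 := h
      _ = B * s ^ 2 * cv U ψ ψ := by ring

end Pool.Agent.H60.KB
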