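import Pool.Agent.H60.KB.GenAlg
import Pool.Agent.H86.KN.Step

/-!
# Module GEN of board kb: the linear functional as a syntactic quadratic form and its generator

`FQ n : TQ ι (ι × ι)` is the linear functional of level `n + 1`: its value is
`FL (P s θ) n (N · s θ)` with `P s θ a b = ρ (a, b) + X a [b] s θ`.  Where `P = 1`, the value of its
generator is `GG A T n N (gN kp N)`.
-/

set_option autoImplicit false

open Finset

namespace Pool.Agent.H60.KB

open Pool.Agent.H55.KB Pool.Agent.H86.KN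

section words

variable {ι κ : Type}

theorem spl_same (l : List ι) : Pool.Agent.H86.KN.spl l = Pool.Agent.H55.KB.spl l := by
  induction l with
  | nil => rfl
  | cons a l ih => simp only [Pool.Agent.H86.KN.spl, Pool.Agent.H55.KB.spl, ih]

variable [Fintype ι]

/-- the generator of a word in the two notations -/
theorem gW_eq {E : Type} (X : ι → List ι → ℝ → E → ℝ) (Y : List ι → ℝ → E → ℝ) (l : List ι)
    (s : ℝ) (θ : E) :
    gW X Y l s θ = gN (fun k u => X k u s θ) (fun u => Y u s θ) l := by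
  unfold gW gN
  rw [spl_same]

/-- sum over words -/
noncomputable def TQ.ws (m : ℕ) (f : List ι → TQ ι κ) : TQ ι κ :=
  TQ.ls (((Finset.univ : Finset (Fin m → ι)).toList).map fun w => f (List.ofFn w))

/-- the linear functional of level `n + 1` -/
noncomputable def FQ (ι : Type) [Fintype ι] (n : ℕ) : TQ ι (ι × ι) :=
  .add (TQ.ws n fun l => TQ.us fun i => .m (.c ((n:ℝ) + 2)) i l i l)
    (TQ.us fun a => TQ.us fun b => TQ.ws n fun l =>
      .m (.mul (.c (-((n:ℝ) + 1))) (.add (.p (a, b)) (.x a b []))) a l b l)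

variable {E : Type} (ρ : κ → ℝ) (X : ι → List ι → ℝ → E → ℝ) (N : List ι → ℝ → E → ℝ)

theorem TQ.ev_ws (m : ℕ) (f : List ι → TQ ι κ) (s : ℝ) (θ : E) :
    (TQ.ws m f).ev ρ X N s θ = WS m fun l => (f l).ev ρ X N s θ := by
  unfold TQ.ws WS
  rw [TQ.ev_ls, List.map_map]
  exact Finset.sum_map_toList _ _

theorem TQ.ev_gen_ls (L : List (TQ ι κ)) (s : ℝ) (θ : E) :
    (TQ.ls L).gen.ev ρ X N s θ = (L.map fun a => a.gen.ev ρ X N s θ).sum := by
  induction L with
  | nil => simp [TQ.ls, TQ.gen, TQ.ev]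
  | cons a L ih => simp [TQ.ls, TQ.gen, TQ.ev, ih]

theorem TQ.ev_gen_us (f : ι → TQ ι κ) (s : ℝ) (θ : E) :
    (TQ.us f).gen.ev ρ X N s θ = ∑ i, (f i).gen.ev ρ X N s θ := by
  unfold TQ.us
  rw [TQ.ev_gen_ls, List.map_map]
  exact Finset.sum_map_toList _ _

theorem TQ.ev_gen_ws (m : ℕ) (f : List ι → TQ ι κ) (s : ℝ) (θ : E) :
    (TQ.ws m f).gen.ev ρ X N s θ = WS m fun l => (f l).gen.ev ρ X N s θ := by
  unfold TQ.ws WS
  rw [TQ.ev_gen_ls, List.map_map]
  exact Finset.sum_map_toList _ _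

theorem WS_smul (m : ℕ) (c : ℝ) (f : List ι → ℝ) : WS m (fun l => c * f l) = c * WS m f := by
  simp only [WS_eq_LS, LS_smul]

theorem WS_add (m : ℕ) (f g : List ι → ℝ) : WS m (fun l => f l + g l) = WS m f + WS m g := by
  simp only [WS_eq_LS, LS_add]

theorem WS_sum {τ : Type} (S : Finset τ) (m : ℕ) (f : τ → List ι → ℝ) :
    WS m (fun l => ∑ k ∈ S, f k l) = ∑ k ∈ S, WS m (f k) := by
  simp only [WS_eq_LS, LS_sum]

/-- moving the first letter inside -/
theorem WS_succ' (m : ℕ) (F : List ι → ℝ) : WS (m + 1) F = WS m fun l => ∑ k, F (k :: l) := by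
  rw [WS_succ, WS_sum]

end words

section gen

variable {ι : Type} [Fintype ι] {E : Type} (ρ : ι × ι → ℝ) (X : ι → List ι → ℝ → E → ℝ)
  (N : List ι → ℝ → E → ℝ)

/-- the value of the linear functional -/
theorem FQ_ev (n : ℕ) (s : ℝ) (θ : E) :
    (FQ ι n).ev ρ X N s θ =
      FL (Matrix.of fun a b => ρ (a, b) + X a [b] s θ) n (fun l => N l s θ) := by
  have e1 : (TQ.ws n fun l => TQ.us fun i => (TQ.m (.c ((n:ℝ) + 2)) i l i l : TQ ι (ι × ι))).ev
      ρ X N s θ = ((n:ℝ) + 2) * WS (n + 1) (fun l => N l s θ ^ 2) := by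
    rw [TQ.ev_ws, WS_succ', ← WS_smul]
    congr 1
    funext l
    rw [TQ.ev_us, Finset.mul_sum]
    refine Finset.sum_congr rfl fun i _ => ?_
    simp only [TQ.ev, TA.ev]
    ring
  have e2 : (TQ.us fun a => TQ.us fun b => TQ.ws n fun l =>
      (TQ.m (.mul (.c (-((n:ℝ) + 1))) (.add (.p (a, b)) (.x a b []))) a l b l :
        TQ ι (ι × ι))).ev ρ X N s θ = -(((n:ℝ) + 1) * ∑ a, ∑ b, (ρ (a, b) + X a [b] s θ) *
          WS n (fun l => N (a :: l) s θ * N (b :: l) s θ)) := by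
    rw [TQ.ev_us, Finset.mul_sum, ← Finset.sum_neg_distrib]
    refine Finset.sum_congr rfl fun a _ => ?_
    rw [TQ.ev_us, Finset.mul_sum, ← Finset.sum_neg_distrib]
    refine Finset.sum_congr rfl fun b _ => ?_
    rw [TQ.ev_ws]
    simp only [TQ.ev, TA.ev]
    rw [WS_smul]
    ring
  unfold FQ FL
  simp only [TQ.ev, e1, e2, Matrix.of_apply]
  ring

theorem gW_two (k b : ι) (s : ℝ) (θ : E) :
    gW X (X k) [b] s θ = -∑ m, X m [b] s θ * X k [m] s θ := by
  unfold gW
  simp [Pool.Agent.H86.KN.spl]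

variable [DecidableEq ι]

/-- the value of the generator of the linear functional where `P = 1` -/
theorem FQ_gen (n : ℕ) (s : ℝ) (θ : E)
    (hP : ∀ a b, ρ (a, b) + X a [b] s θ = if a = b then 1 else 0)
    (hT : ∀ k a b, X a [k, b] s θ = X b [k, a] s θ) :
    (FQ ι n).gen.ev ρ X N s θ =
      GG (Matrix.of fun a b => X a [b] s θ) (fun k a b => X a [k, b] s θ) n (fun l => N l s θ)
        (gN (fun k u => X k u s θ) (fun l => N l s θ)) := by
  set g : List ι → ℝ := gN (fun k u => X k u s θ) (fun l => N l s θ) with hg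
  rw [← gen_form n (fun l => N l s θ) g (Matrix.of fun a b => X a [b] s θ)
    (fun k a b => X a [k, b] s θ) hT]
  have e1 : (TQ.ws n fun l => TQ.us fun i => (TQ.m (.c ((n:ℝ) + 2)) i l i l :
      TQ ι (ι × ι))).gen.ev ρ X N s θ = ((n:ℝ) + 2) * WS (n + 1) (fun l =>
        2 * (N l s θ * g l) + ∑ k, N (k :: l) s θ ^ 2) := by
    rw [TQ.ev_gen_ws, WS_succ', ← WS_smul]
    congr 1
    funext l
    rw [TQ.ev_gen_us, Finset.mul_sum]
    refine Finset.sum_congr rfl fun i _ => ?_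
    rw [TQ.ev_gen_m, gW_eq]
    simp only [TA.gen, TA.ev, TA.d]
    have : ∑ k, N (k :: i :: l) s θ * N (k :: i :: l) s θ =
        ∑ k, N (k :: i :: l) s θ ^ 2 := Finset.sum_congr rfl fun k _ => by ring
    rw [this]
    simp only [zero_mul, Finset.sum_const_zero, hg]
    ring
  have e2 : (TQ.us fun a => TQ.us fun b => TQ.ws n fun l =>
      (TQ.m (.mul (.c (-((n:ℝ) + 1))) (.add (.p (a, b)) (.x a b []))) a l b l :
        TQ ι (ι × ι))).gen.ev ρ X N s θ =
      -(((n:ℝ) + 1) * ∑ a, ∑ b, (-((Matrix.of fun a b => X a [b] s θ) *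
        (Matrix.of fun a b => X a [b] s θ) : Matrix ι ι ℝ) a b *
          WS n (fun l => N (a :: l) s θ * N (b :: l) s θ) +
        (if a = b then (1:ℝ) else 0) * WS n (fun l => N (a :: l) s θ * g (b :: l) +
          g (a :: l) * N (b :: l) s θ + ∑ k, N (k :: a :: l) s θ * N (k :: b :: l) s θ) +
        ∑ k, X a [k, b] s θ * WS n (fun l => N (k :: a :: l) s θ * N (b :: l) s θ +
          N (a :: l) s θ * N (k :: b :: l) s θ))) := by
    rw [TQ.ev_gen_us, Finset.mul_sum, ← Finset.sum_neg_distrib]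
    refine Finset.sum_congr rfl fun a _ => ?_
    rw [TQ.ev_gen_us, Finset.mul_sum, ← Finset.sum_neg_distrib]
    refine Finset.sum_congr rfl fun b _ => ?_
    rw [TQ.ev_gen_ws, ← hP a b]
    have e3 : ∀ l, (TQ.m (.mul (.c (-((n:ℝ) + 1))) (.add (.p (a, b)) (.x a b []))) a l b l :
        TQ ι (ι × ι)).gen.ev ρ X N s θ = -((n:ℝ) + 1) * (-(∑ m, X a [m] s θ * X m [b] s θ) *
          (N (a :: l) s θ * N (b :: l) s θ) + (ρ (a, b) + X a [b] s θ) *
          (N (a :: l) s θ * g (b :: l) + g (a :: l) * N (b :: l) s θ +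
            ∑ k, N (k :: a :: l) s θ * N (k :: b :: l) s θ) + ∑ k, X a [k, b] s θ *
          (N (k :: a :: l) s θ * N (b :: l) s θ + N (a :: l) s θ * N (k :: b :: l) s θ)) := by
      intro l
      have h1 : (TA.mul (.c (-((n:ℝ) + 1))) (.add (.p (a, b)) (.x a b [])) :
          TA ι (ι × ι)).gen.ev ρ X s θ = -((n:ℝ) + 1) * -∑ m, X a [m] s θ * X m [b] s θ := by
        have h2 : (TA.x a b [] : TA ι (ι × ι)).gen.ev ρ X s θ =
            -∑ m, X a [m] s θ * X m [b] s θ := by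
          rw [TA.ev_gen_x, gW_two]
          exact congrArg _ (Finset.sum_congr rfl fun m _ => mul_comm _ _)
        simp only [TA.gen, TA.ev, TA.d, TA.ev_us] at h2 ⊢
        rw [h2]
        simp
      rw [TQ.ev_gen_m, gW_eq, gW_eq, h1]
      simp only [TA.ev, TA.d, zero_mul, zero_add]
      have h5 : ∑ k, -((n:ℝ) + 1) * X a [k, b] s θ * (N (k :: a :: l) s θ * N (b :: l) s θ +
          N (a :: l) s θ * N (k :: b :: l) s θ) = -((n:ℝ) + 1) * ∑ k, X a [k, b] s θ *
          (N (k :: a :: l) s θ * N (b :: l) s θ + N (a :: l) s θ * N (k :: b :: l) s θ) := by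
        rw [Finset.mul_sum]
        exact Finset.sum_congr rfl fun k _ => by ring
      rw [h5, ← hg]
      ring
    simp only [e3]
    rw [WS_smul, WS_add, WS_add, WS_smul, WS_smul, WS_sum]
    simp only [WS_smul, Matrix.mul_apply, Matrix.of_apply]
    ring
  unfold FQ
  simp only [TQ.gen, TQ.ev, e1, e2]
  ring

end gen

end Pool.Agent.H60.KB
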