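import Pool.Agent.H55.KB.Defs

/-!
# The generator of the linear functional at `P = 1`: the algebra
-/

set_option autoImplicit false

open Finset

namespace Pool.Agent.H60.KB

open Pool.Agent.H55.KB

variable {ι : Type} [Fintype ι] [DecidableEq ι]

omit [DecidableEq ι] in
theorem gena_sq (n : ℕ) (N : List ι → ℝ) :
    LS (n + 1) (fun l => ∑ k, N (k :: l) ^ 2) = LS (n + 2) (fun l => N l ^ 2) := by
  rw [LS_sum]
  rfl

theorem gena_diag (n : ℕ) (N G : List ι → ℝ) :
    ∑ a, ∑ b, (if a = b then (1:ℝ) else 0) * LS n (fun l => N (a :: l) * G (b :: l) +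
      G (a :: l) * N (b :: l) + ∑ k, N (k :: a :: l) * N (k :: b :: l)) =
    2 * LS (n + 1) (fun l => N l * G l) + LS (n + 2) (fun l => N l ^ 2) := by
  have e1 : ∀ a, ∑ b, (if a = b then (1:ℝ) else 0) * LS n (fun l => N (a :: l) * G (b :: l) +
      G (a :: l) * N (b :: l) + ∑ k, N (k :: a :: l) * N (k :: b :: l)) =
      LS n (fun l => (fun l => 2 * (N l * G l) + ∑ k, N (k :: l) ^ 2) (a :: l)) := by
    intro a
    rw [Finset.sum_eq_single a]
    · rw [if_pos rfl, one_mul]
      refine congrArg (LS n) (funext fun l => ?_)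
      have : ∑ k, N (k :: a :: l) * N (k :: a :: l) = ∑ k, N (k :: a :: l) ^ 2 :=
        Finset.sum_congr rfl fun k _ => by ring
      simp only [this]
      ring
    · intro b _ hb
      rw [if_neg (Ne.symm hb), zero_mul]
    · intro h
      exact absurd (Finset.mem_univ a) h
  rw [Finset.sum_congr rfl fun a _ => e1 a, ← LS_succ n (fun l => 2 * (N l * G l) +
    ∑ k, N (k :: l) ^ 2), LS_add, LS_smul, gena_sq]

omit [DecidableEq ι] in
theorem gena_third (n : ℕ) (N : List ι → ℝ) (T : ι → ι → ι → ℝ)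
    (hT : ∀ k a b, T k a b = T k b a) :
    ∑ a, ∑ b, ∑ k, T k a b * LS n (fun l => N (k :: a :: l) * N (b :: l) +
      N (a :: l) * N (k :: b :: l)) =
    2 * ∑ k, ∑ a, ∑ b, T k a b * LS n (fun l => N (k :: a :: l) * N (b :: l)) := by
  have e1 : ∀ a b k, T k a b * LS n (fun l => N (k :: a :: l) * N (b :: l) +
      N (a :: l) * N (k :: b :: l)) =
      T k a b * LS n (fun l => N (k :: a :: l) * N (b :: l)) +
        T k b a * LS n (fun l => N (k :: b :: l) * N (a :: l)) := by
    intro a b k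
    rw [LS_add, mul_add, hT k a b]
    congr 2
    exact congrArg (LS n) (funext fun l => mul_comm _ _)
  simp only [e1, Finset.sum_add_distrib]
  have e2 : ∑ a, ∑ b, ∑ k, T k a b * LS n (fun l => N (k :: a :: l) * N (b :: l)) =
      ∑ k, ∑ a, ∑ b, T k a b * LS n (fun l => N (k :: a :: l) * N (b :: l)) := by
    rw [Finset.sum_congr rfl fun a _ => Finset.sum_comm]
    exact Finset.sum_comm
  have e3 : ∑ a, ∑ b, ∑ k, T k b a * LS n (fun l => N (k :: b :: l) * N (a :: l)) =
      ∑ k, ∑ a, ∑ b, T k a b * LS n (fun l => N (k :: a :: l) * N (b :: l)) := by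
    rw [Finset.sum_comm, e2]
  rw [e2, e3]
  ring

/-- the generator of the linear functional at `P = 1`, all terms of the product rule on the left -/
theorem gena_alg (n : ℕ) (N G : List ι → ℝ) (A2 : ι → ι → ℝ) (T : ι → ι → ι → ℝ)
    (hT : ∀ k a b, T k a b = T k b a) :
    ((n:ℝ) + 2) * LS (n + 1) (fun l => 2 * (N l * G l) + ∑ k, N (k :: l) ^ 2) -
      ((n:ℝ) + 1) * ∑ a, ∑ b, (-A2 a b * LS n (fun l => N (a :: l) * N (b :: l)) +
        (if a = b then (1:ℝ) else 0) * LS n (fun l => N (a :: l) * G (b :: l) +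
          G (a :: l) * N (b :: l) + ∑ k, N (k :: a :: l) * N (k :: b :: l)) +
        ∑ k, T k a b * LS n (fun l => N (k :: a :: l) * N (b :: l) +
          N (a :: l) * N (k :: b :: l))) =
    2 * LS (n + 1) (fun l => N l * G l) + LS (n + 2) (fun l => N l ^ 2) +
      ((n:ℝ) + 1) * ∑ a, ∑ b, A2 a b * LS n (fun l => N (a :: l) * N (b :: l)) -
      2 * ((n:ℝ) + 1) * ∑ k, ∑ a, ∑ b, T k a b * LS n (fun l => N (k :: a :: l) * N (b :: l)) := by
  have e1 : LS (n + 1) (fun l => 2 * (N l * G l) + ∑ k, N (k :: l) ^ 2) =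
      2 * LS (n + 1) (fun l => N l * G l) + LS (n + 2) (fun l => N l ^ 2) := by
    rw [LS_add, LS_smul, gena_sq]
  simp only [Finset.sum_add_distrib]
  rw [e1, gena_diag, gena_third n N T hT]
  simp only [neg_mul, Finset.sum_neg_distrib]
  ring

/-- the same with `WS` -/
theorem gen_form (n : ℕ) (N g : List ι → ℝ) (A : Matrix ι ι ℝ) (T : ι → ι → ι → ℝ)
    (hT : ∀ k a b, T k a b = T k b a) :
    ((n:ℝ) + 2) * WS (n + 1) (fun l => 2 * (N l * g l) + ∑ k, N (k :: l) ^ 2) -
      ((n:ℝ) + 1) * ∑ a, ∑ b, (-(A * A) a b * WS n (fun l => N (a :: l) * N (b :: l)) +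
        (if a = b then (1:ℝ) else 0) * WS n (fun l => N (a :: l) * g (b :: l) +
          g (a :: l) * N (b :: l) + ∑ k, N (k :: a :: l) * N (k :: b :: l)) +
        ∑ k, T k a b * WS n (fun l => N (k :: a :: l) * N (b :: l) +
          N (a :: l) * N (k :: b :: l))) =
    GG A T n N g := by
  simp only [GG, WS_eq_LS]
  exact gena_alg n N g (A * A) T hT

end Pool.Agent.H60.KB
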